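import Mathlib

/-!
# Evaluation of the independence polynomial of a small graph

A graph on `Fin l.length` is given by a list `l` of masks: for `i < j` the vertices `i`, `j` are
adjacent when bit `j - i - 1` of `l[i]` is set. `run num den l forb` evaluates the independence
polynomial and its first moment at `num / den`.
-/

set_option autoImplicit false

namespace Pool.Agent.L5helper48.Occ

open Finset

/-- Evaluation by recursion on the vertices. -/
def run (num den : ℕ) : List ℕ → ℕ → ℕ × ℕ
  | [], _ => (1, 0)
  | a :: l, forb =>
    if forb % 2 = 0 then
      (den * (run num den l (forb / 2)).1 + num * (run num den l (forb / 2 ||| a)).1,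
       den * (run num den l (forb / 2)).2 +
        num * ((run num den l (forb / 2 ||| a)).1 + (run num den l (forb / 2 ||| a)).2))
    else
      (den * (run num den l (forb / 2)).1, den * (run num den l (forb / 2)).2)

/-- `f` avoids the forbidden vertices and is independent. -/
def Good : (l : List ℕ) → ℕ → (Fin l.length → Bool) → Prop := fun l forb f =>
  (∀ i, f i = true → forb.testBit i = false) ∧
  (∀ i j, i < j → f i = true → f j = true → (l.get i).testBit (j.1 - i.1 - 1) = false)

/-- Number of chosen vertices. -/
def cnt {n : ℕ} (f : Fin n → Bool) : ℕ := ∑ i, if f i = true then 1 else 0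

theorem good_cons (a : ℕ) (l : List ℕ) (forb : ℕ) (b : Bool) (g : Fin l.length → Bool) :
    Good (a :: l) forb (Fin.cons b g : Fin (l.length + 1) → Bool) ↔
      if b = true then (forb % 2 = 0 ∧ Good l (forb / 2 ||| a) g) else Good l (forb / 2) g := by
  have htb : ∀ i : ℕ, forb.testBit (i + 1) = (forb / 2).testBit i := by
    intro i; rw [Nat.testBit_succ]
  have ht0 : forb.testBit 0 = false ↔ forb % 2 = 0 := by
    rw [Nat.testBit_zero]; simp
  cases b with
  | false =>
    simp only [Bool.false_eq_true, if_false]
    constructor
    · rintro ⟨h1, h2⟩
      refine ⟨fun i hi => ?_, fun i j hij hi hj => ?_⟩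
      · have := h1 i.succ (by simpa using hi)
        rw [← htb]; simpa using this
      · have := h2 i.succ j.succ (by simpa using hij) (by simpa using hi) (by simpa using hj)
        have e : j.1 + 1 - (i.1 + 1) - 1 = j.1 - i.1 - 1 := by omega
        simpa [e] using this
    · rintro ⟨h1, h2⟩
      refine ⟨?_, ?_⟩
      · intro i
        refine Fin.cases ?_ (fun i => ?_) i
        · intro h; simp at h
        · intro h
          have := h1 i (by simpa using h)
          rw [← htb] at this; simpa using this
      · intro i j
        refine Fin.cases ?_ (fun i => ?_) i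
        · intro _ h; simp at h
        · refine Fin.cases ?_ (fun j => ?_) j
          · intro h; simp at h
          · intro hij hi hj
            have := h2 i j (by simpa using hij) (by simpa using hi) (by simpa using hj)
            have e : j.1 + 1 - (i.1 + 1) - 1 = j.1 - i.1 - 1 := by omega
            simpa [e] using this
  | true =>
    simp only [if_true]
    constructor
    · rintro ⟨h1, h2⟩
      refine ⟨?_, fun i hi => ?_, fun i j hij hi hj => ?_⟩
      · have := h1 0 (by simp)
        rw [← ht0]; simpa using this
      · have h3 := h1 i.succ (by simpa using hi)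
        have h4 := h2 0 i.succ (by simp) (by simp) (by simpa using hi)
        rw [Nat.testBit_lor, ← htb]
        simp at h3 h4
        simp [h3, h4]
      · have := h2 i.succ j.succ (by simpa using hij) (by simpa using hi) (by simpa using hj)
        have e : j.1 + 1 - (i.1 + 1) - 1 = j.1 - i.1 - 1 := by omega
        simpa [e] using this
    · rintro ⟨h0, h1, h2⟩
      have h1' : ∀ i : Fin l.length, g i = true → forb.testBit (i.1 + 1) = false ∧
          a.testBit i.1 = false := by
        intro i hi
        have := h1 i hi
        rw [Nat.testBit_lor, ← htb] at this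
        simpa using this
      refine ⟨?_, ?_⟩
      · intro i
        refine Fin.cases ?_ (fun i => ?_) i
        · intro _; simpa using ht0.2 h0
        · intro h
          simpa using (h1' i (by simpa using h)).1
      · intro i j
        refine Fin.cases ?_ (fun i => ?_) i
        · refine Fin.cases ?_ (fun j => ?_) j
          · intro h; simp at h
          · intro _ _ hj
            simpa using (h1' j (by simpa using hj)).2
        · refine Fin.cases ?_ (fun j => ?_) j
          · intro h; simp at h
          · intro hij hi hj
            have := h2 i j (by simpa using hij) (by simpa using hi) (by simpa using hj)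
            have e : j.1 + 1 - (i.1 + 1) - 1 = j.1 - i.1 - 1 := by omega
            simpa [e] using this

theorem cnt_cons {n : ℕ} (b : Bool) (g : Fin n → Bool) :
    cnt (Fin.cons b g : Fin (n + 1) → Bool) = (if b = true then 1 else 0) + cnt g := by
  unfold cnt
  rw [Fin.sum_univ_succ]
  simp

open Classical in
/-- Sum of `lam ^ |f|` over good `f`. -/
noncomputable def S0 (lam : ℝ) (l : List ℕ) (forb : ℕ) : ℝ :=
  ∑ f : Fin l.length → Bool, if Good l forb f then lam ^ cnt f else 0

open Classical in
/-- Sum of `|f| lam ^ |f|` over good `f`. -/
noncomputable def S1 (lam : ℝ) (l : List ℕ) (forb : ℕ) : ℝ :=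
  ∑ f : Fin l.length → Bool, if Good l forb f then (cnt f : ℝ) * lam ^ cnt f else 0

theorem sum_cons {n : ℕ} (F : (Fin (n + 1) → Bool) → ℝ) :
    ∑ f : Fin (n + 1) → Bool, F f =
      ∑ g : Fin n → Bool, F (Fin.cons false g) + ∑ g : Fin n → Bool, F (Fin.cons true g) := by
  rw [← (Fin.consEquiv (fun _ : Fin (n + 1) => Bool)).sum_comp]
  rw [Fintype.sum_prod_type]
  simp only [Fintype.sum_bool]
  rw [add_comm]
  rfl

open Classical in
theorem S0_cons (lam : ℝ) (a : ℕ) (l : List ℕ) (forb : ℕ) :
    S0 lam (a :: l) forb = S0 lam l (forb / 2) +
      (if forb % 2 = 0 then lam * S0 lam l (forb / 2 ||| a) else 0) := by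
  unfold S0
  have := sum_cons (n := l.length)
    (fun f => if Good (a :: l) forb f then lam ^ cnt f else 0)
  refine Eq.trans this ?_
  congr 1
  · apply Finset.sum_congr rfl
    intro g _
    rw [cnt_cons]
    simp only [good_cons, Bool.false_eq_true, if_false, zero_add]
  · by_cases h : forb % 2 = 0
    · rw [if_pos h, Finset.mul_sum]
      apply Finset.sum_congr rfl
      intro g _
      rw [cnt_cons]
      simp only [good_cons, if_true, h, true_and]
      split_ifs
      · rw [pow_add, pow_one]
      · simp
    · rw [if_neg h]
      apply Finset.sum_eq_zero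
      intro g _
      simp only [good_cons, if_true, h, false_and, if_false]

open Classical in
theorem S1_cons (lam : ℝ) (a : ℕ) (l : List ℕ) (forb : ℕ) :
    S1 lam (a :: l) forb = S1 lam l (forb / 2) +
      (if forb % 2 = 0 then lam * (S0 lam l (forb / 2 ||| a) + S1 lam l (forb / 2 ||| a))
        else 0) := by
  unfold S1
  have := sum_cons (n := l.length)
    (fun f => if Good (a :: l) forb f then (cnt f : ℝ) * lam ^ cnt f else 0)
  refine Eq.trans this ?_
  congr 1
  · apply Finset.sum_congr rfl
    intro g _
    rw [cnt_cons]
    simp only [good_cons, Bool.false_eq_true, if_false, zero_add]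
  · by_cases h : forb % 2 = 0
    · rw [if_pos h, S0, ← Finset.sum_add_distrib, Finset.mul_sum]
      apply Finset.sum_congr rfl
      intro g _
      rw [cnt_cons]
      simp only [good_cons, if_true, h, true_and]
      split_ifs
      · push_cast
        rw [pow_add, pow_one]
        ring
      · simp
    · rw [if_neg h]
      apply Finset.sum_eq_zero
      intro g _
      simp only [good_cons, if_true, h, false_and, if_false]

theorem run_spec (num den : ℕ) (lam : ℝ) (h : (den : ℝ) * lam = num) (l : List ℕ) :
    ∀ forb : ℕ, ((run num den l forb).1 : ℝ) = den ^ l.length * S0 lam l forb ∧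
      ((run num den l forb).2 : ℝ) = den ^ l.length * S1 lam l forb := by
  induction l with
  | nil =>
    intro forb
    constructor
    · simp [run, S0, Good, cnt]
    · simp [run, S1, Good, cnt]
  | cons a l ih =>
    intro forb
    obtain ⟨h1, h2⟩ := ih (forb / 2)
    obtain ⟨h3, h4⟩ := ih (forb / 2 ||| a)
    rw [S0_cons, S1_cons]
    by_cases hf : forb % 2 = 0
    · simp only [run, hf, if_true]
      push_cast
      rw [h1, h2, h3, h4, List.length_cons, ← h]
      constructor <;> ring
    · simp only [run, hf, if_false]
      push_cast
      rw [h1, h2, List.length_cons]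
      constructor <;> ring

/-- The graph given by the masks. -/
def graph (l : List ℕ) : SimpleGraph (Fin l.length) where
  Adj i j := (i < j ∧ (l.get i).testBit (j.1 - i.1 - 1) = true) ∨
    (j < i ∧ (l.get j).testBit (i.1 - j.1 - 1) = true)
  symm := ⟨fun i j h => h.symm⟩
  loopless := ⟨fun i h => by
    rcases h with h | h <;> exact lt_irrefl _ h.1⟩

instance (l : List ℕ) : DecidableRel (graph l).Adj := fun i j => by
  unfold graph; infer_instance

/-- Sets of vertices as Boolean functions. -/
def toFun (n : ℕ) : Finset (Fin n) ≃ (Fin n → Bool) where
  toFun I := fun i => decide (i ∈ I)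
  invFun f := univ.filter (fun i => f i = true)
  left_inv I := by ext i; simp
  right_inv f := by ext i; simp

theorem cnt_toFun {n : ℕ} (I : Finset (Fin n)) : cnt (toFun n I) = I.card := by
  unfold cnt toFun
  simp

theorem good_toFun (l : List ℕ) (I : Finset (Fin l.length)) :
    Good l 0 (toFun l.length I) ↔ (graph l).IsIndepSet (I : Set (Fin l.length)) := by
  unfold Good SimpleGraph.IsIndepSet
  simp only [Nat.zero_testBit, implies_true, true_and]
  constructor
  · intro h i hi j hj hij hadj
    have hi' : i ∈ I := hi
    have hj' : j ∈ I := hj
    rcases hadj with ⟨h1, h2⟩ | ⟨h1, h2⟩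
    · have := h i j h1 (by simpa [toFun] using hi') (by simpa [toFun] using hj')
      rw [this] at h2; exact absurd h2 (by simp)
    · have := h j i h1 (by simpa [toFun] using hj') (by simpa [toFun] using hi')
      rw [this] at h2; exact absurd h2 (by simp)
  · intro h i j hij hi hj
    have hi' : i ∈ I := by simpa [toFun] using hi
    have hj' : j ∈ I := by simpa [toFun] using hj
    have := h (x := i) hi' (y := j) hj' (ne_of_lt hij)
    by_contra hne
    apply this
    left
    exact ⟨hij, by simpa using hne⟩

open Classical in
theorem sum_indep (l : List ℕ) (F : ℕ → ℝ) :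
    (∑ I : Finset (Fin l.length), if (graph l).IsIndepSet (I : Set (Fin l.length))
      then F I.card else 0) =
    ∑ f : Fin l.length → Bool, if Good l 0 f then F (cnt f) else 0 := by
  rw [← (toFun l.length).sum_comp]
  apply Finset.sum_congr rfl
  intro I _
  rw [cnt_toFun]
  by_cases h : Good l 0 (toFun l.length I)
  · rw [if_pos h, if_pos ((good_toFun l I).1 h)]
  · rw [if_neg h, if_neg (fun h' => h ((good_toFun l I).2 h'))]

end Pool.Agent.L5helper48.Occ
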