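import Mathlib
import Pool.Agent.L5helper66.TD.Defs

/-! Project TD (helper66), job 11 (helper48). -/

set_option autoImplicit false

open scoped TensorProduct RealInnerProductSpace

namespace Pool.Agent.L5helper48.TD

open Pool.Agent.L5helper66.TD

theorem two_pow_pyr (p q : ℕ) (hp : 0 < p) (hq : 0 < q) (hpq : q ^ 2 < 3 * p ^ 2)
    (hc : Nat.Coprime p q)
    (h : ∀ ℓ : ℕ, ℓ.Prime → ℓ ≠ 2 → ¬ ℓ ∣ 2 * p + q ∧ ¬ ℓ ∣ 2 * p - q) :
    (p = 3 ∧ q = 2) ∨ (p = 5 ∧ q = 6) ∨ (p = 9 ∧ q = 14) := by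
  have hlt : q < 2 * p := by nlinarith
  have e1 := Nat.eq_prime_pow_of_unique_prime_dvd (n := 2 * p + q) (p := 2) (by omega)
    (fun {d} hd hdv => by
      by_contra hne
      exact (h d hd hne).1 hdv)
  have e2 := Nat.eq_prime_pow_of_unique_prime_dvd (n := 2 * p - q) (p := 2) (by omega)
    (fun {d} hd hdv => by
      by_contra hne
      exact (h d hd hne).2 hdv)
  generalize (2 * p + q).primeFactorsList.length = u at e1
  generalize (2 * p - q).primeFactorsList.length = v at e2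
  have huv : v < u := by
    by_contra hcon
    have : 2 ^ u ≤ 2 ^ v := Nat.pow_le_pow_right (by norm_num) (by omega)
    omega
  have hodd : ¬ (2 ∣ p ∧ 2 ∣ q) := fun ⟨h1, h2⟩ => by
    have := Nat.dvd_gcd h1 h2
    rw [Nat.Coprime] at hc
    rw [hc] at this
    omega
  have hu1 : 2 ^ u = 2 * 2 ^ (u - 1) := by
    rw [← pow_succ']; congr 1; omega
  have hqe : 2 ∣ q := by omega
  have hpo : ¬ 2 ∣ p := fun h1 => hodd ⟨h1, hqe⟩
  rcases v with _ | _ | _ | v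
  · simp at e2; omega
  · -- 2 p - q = 2
    simp only [zero_add, pow_one] at e2
    rcases u with _ | _ | u
    · omega
    · omega
    · have : 2 ^ (u + 1 + 1) = 4 * 2 ^ u := by ring
      omega
  · -- 2 p - q = 4
    norm_num at e2
    obtain ⟨n, rfl⟩ : ∃ n, u = n + 3 := ⟨u - 3, by omega⟩
    have h3 : 2 ^ (n + 3) = 8 * 2 ^ n := by ring
    rw [h3] at e1
    have hp' : p = 2 * 2 ^ n + 1 := by omega
    have hq' : q = 4 * 2 ^ n - 2 := by omega
    have hN : 2 ^ n < 7 := by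
      by_contra hcon
      push Not at hcon
      obtain ⟨m, hm⟩ : ∃ m, 2 ^ n = m + 7 := ⟨2 ^ n - 7, by omega⟩
      rw [hm] at hp' hq'
      have hq2 : q = 4 * m + 26 := by omega
      rw [hp', hq2] at hpq
      nlinarith
    have hn : n < 3 := by
      by_contra hcon
      have : 2 ^ 3 ≤ 2 ^ n := Nat.pow_le_pow_right (by norm_num) (by omega)
      omega
    interval_cases n <;> omega
  · -- 8 | 2 p - q
    have h4 : 2 ^ (v + 1 + 1 + 1) = 8 * 2 ^ v := by ring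
    obtain ⟨n, rfl⟩ : ∃ n, u = n + 3 := ⟨u - 3, by omega⟩
    have h3 : 2 ^ (n + 3) = 8 * 2 ^ n := by ring
    omega

theorem pyr56 (M : ℕ) (hM : 0 < M) :
    ¬ ((⟨(6 : ℕ), 2⟩ : ℤ√(((6 : ℕ) : ℤ) ^ 2 - 3 * ((5 : ℕ) : ℤ) ^ 2)) ^ (6 * M) * ⟨(5 : ℕ), -1⟩ ^ (2 * 5 * M) =
        ⟨(6 : ℕ), -2⟩ ^ (6 * M) * ⟨(5 : ℕ), 1⟩ ^ (2 * 5 * M)) := by
  intro h
  set s : ℂ := Complex.I * (√39 : ℝ) with hs
  have h39 : ((√39 : ℝ) : ℂ) * ((√39 : ℝ) : ℂ) = 39 := by
    rw [← Complex.ofReal_mul, Real.mul_self_sqrt (by norm_num)]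
    norm_num
  have hss : s * s = -39 := by
    rw [hs]
    calc Complex.I * (√39 : ℝ) * (Complex.I * (√39 : ℝ)) =
          (Complex.I * Complex.I) * (((√39 : ℝ) : ℂ) * ((√39 : ℝ) : ℂ)) := by ring
      _ = -39 := by rw [h39, Complex.I_mul_I]; ring
  set φ := Zsqrtd.lift (R := ℂ) (d := ((6 : ℕ) : ℤ) ^ 2 - 3 * ((5 : ℕ) : ℤ) ^ 2)
    ⟨s, by rw [hss]; push_cast; norm_num⟩ with hφ
  have h1 := congrArg φ h
  simp only [map_mul, map_pow, hφ, Zsqrtd.lift_apply_apply] at h1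
  push_cast at h1
  set u : ℂ := 3 + s with hu
  set v : ℂ := 3 - s with hv
  have huv : u * v = 48 := by
    rw [hu, hv]; linear_combination -hss
  have hu0 : u ≠ 0 := by rintro h0; rw [h0, zero_mul] at huv; norm_num at huv
  have hv0 : v ≠ 0 := by rintro h0; rw [h0, mul_zero] at huv; norm_num at huv
  have a1 : (6 : ℂ) + 2 * s = 2 * u := by rw [hu]; ring
  have a2 : (6 : ℂ) + -2 * s = 2 * v := by rw [hv]; ring
  have a3 : (5 : ℂ) + -1 * s = (-1 / 6) * u ^ 2 := by rw [hu]; linear_combination (-1 / 6 : ℂ) * (-1) * hss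
  have a4 : (5 : ℂ) + 1 * s = (-1 / 6) * v ^ 2 := by rw [hv]; linear_combination (-1 / 6 : ℂ) * (-1) * hss
  rw [a1, a2, a3, a4] at h1
  have hpow : u ^ (26 * M) = v ^ (26 * M) := by
    have e : (2 : ℂ) ^ (6 * M) * (-1 / 6) ^ (2 * 5 * M) ≠ 0 := mul_ne_zero (pow_ne_zero _ (by norm_num)) (pow_ne_zero _ (by norm_num))
    apply mul_left_cancel₀ e
    calc (2 : ℂ) ^ (6 * M) * (-1 / 6) ^ (2 * 5 * M) * u ^ (26 * M) =
          (2 * u) ^ (6 * M) * ((-1 / 6) * u ^ 2) ^ (2 * 5 * M) := by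
          rw [mul_pow, mul_pow, ← pow_mul]; ring
      _ = (2 * v) ^ (6 * M) * ((-1 / 6) * v ^ 2) ^ (2 * 5 * M) := h1
      _ = _ := by rw [mul_pow, mul_pow, ← pow_mul]; ring
  have hz : (u / v) ^ (26 * M) = 1 := by
    rw [div_pow, hpow, div_self (pow_ne_zero _ hv0)]
  have hz' : (v / u) ^ (26 * M) = 1 := by
    rw [div_pow, hpow, div_self (pow_ne_zero _ hv0)]
  have i1 : IsIntegral ℤ (u / v) := IsIntegral.of_pow (n := 26 * M) (by omega) (by rw [hz]; exact isIntegral_one)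
  have i2 : IsIntegral ℤ (v / u) := IsIntegral.of_pow (n := 26 * M) (by omega) (by rw [hz']; exact isIntegral_one)
  have i3 := i1.add i2
  have e5 : u / v + v / u = algebraMap ℚ ℂ (-5 / 4) := by
    have : u / v + v / u = (u ^ 2 + v ^ 2) / (u * v) := by field_simp
    rw [this, huv]
    have : u ^ 2 + v ^ 2 = -60 := by rw [hu, hv]; linear_combination 2 * hss
    rw [this]
    simp
    norm_num
  rw [e5, isIntegral_algebraMap_iff (algebraMap ℚ ℂ).injective, IsIntegrallyClosed.isIntegral_iff] at i3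
  obtain ⟨y, hy⟩ := i3
  have h6 : (4 : ℚ) * y = -5 := by
    have : (y : ℚ) = -5 / 4 := by simpa using hy
    rw [this]; norm_num
  have h7 : (4 : ℤ) * y = -5 := by exact_mod_cast h6
  omega

end Pool.Agent.L5helper48.TD
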